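import Pool.Agent.W658.ZS.Final

/-! The algebra `D` for MP_ced2c5_an: separable, simple, purely infinite. -/

set_option autoImplicit false

noncomputable section

open scoped InnerProductSpace ComplexOrder
open TopologicalSpace

namespace Q89.CE

open Pool.CS Pool.CS.N_amp Pool.Agent.W658.ZS Pool.Agent.H327R4.Pure

/-- the group -/
abbrev GZ : Type := Multiplicative ℤ

/-- the trivial algebra -/
abbrev C0 : StarSubalgebra ℂ (l2 Unit →L[ℂ] l2 Unit) := ⊤

instance : IsClosed (C0 : Set (l2 Unit →L[ℂ] l2 Unit)) := by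
  show IsClosed (Set.univ)
  exact isClosed_univ

instance : IsClosed ((⊤ : StarSubalgebra ℂ (l2 Unit →L[ℂ] l2 Unit)) :
    Set (l2 Unit →L[ℂ] l2 Unit)) := by
  show IsClosed (Set.univ)
  exact isClosed_univ

theorem scalar (T : l2 Unit →L[ℂ] l2 Unit) : T = (T (dlt ()) ()) • 1 := by
  apply ext_dlt
  rintro ⟨⟩
  ext ⟨⟩
  show T (dlt ()) () = (T (dlt ()) () • (dlt () : l2 Unit)) ()
  rw [lp.coeFn_smul, Pi.smul_apply, dlt_self, smul_eq_mul, mul_one]

theorem nontriv_C0 : Nontrivial C0 := by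
  refine ⟨⟨1, 0, fun h => ?_⟩⟩
  have h1 : (1 : l2 Unit →L[ℂ] l2 Unit) = 0 := congrArg Subtype.val h
  have h2 := congrArg (fun T : l2 Unit →L[ℂ] l2 Unit => ‖T (dlt ())‖) h1
  simp only [one_apply_eq_self, zero_apply, norm_zero, norm_dlt] at h2
  exact one_ne_zero h2

theorem simple_C0 : SimpleC C0 := by
  have := nontriv_C0
  apply simple_of_compress
  rintro ⟨b, hb⟩ hb0
  obtain ⟨c, hc⟩ : ∃ c : ℂ, b = c • 1 := ⟨_, scalar b⟩
  have hc0 : c ≠ 0 := by
    rintro rfl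
    apply hb0
    apply Subtype.ext
    rw [hc, zero_smul]; rfl
  refine ⟨⟨(c⁻¹ : ℂ) • 1, trivial⟩, Subtype.ext ?_⟩
  show star ((c⁻¹ : ℂ) • (1 : l2 Unit →L[ℂ] l2 Unit)) * (star b * b) * ((c⁻¹ : ℂ) • 1) = 1
  rw [hc, star_smul, star_smul, star_one]
  simp only [smul_mul_assoc, mul_smul_comm, smul_smul, mul_one]
  have : c⁻¹ * (star c * (c * star c⁻¹)) = 1 := by
    rw [star_inv₀]
    have h2 : star c ≠ 0 := by simpa using hc0
    field_simp
  first
    | rw [show c⁻¹ * (c * (star c * star c⁻¹)) = 1 by rw [← this]; ring, one_smul]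
    | (convert one_smul ℂ (1 : l2 Unit →L[ℂ] l2 Unit) using 2; rw [← this]; ring)

section gen

variable {G : Type} [Group G] {Y : Type}

instance Bt_cl (C : StarSubalgebra ℂ (l2 Y →L[ℂ] l2 Y)) :
    IsClosed (Bt G C : Set (BW G Y)) := Bt_closed C

theorem nontriv_Bt [Nonempty Y] (C : StarSubalgebra ℂ (l2 Y →L[ℂ] l2 Y)) :
    Nontrivial (Bt G C) := by
  obtain ⟨y⟩ := (inferInstance : Nonempty Y)
  refine ⟨⟨1, 0, fun h => ?_⟩⟩
  have h1 : (1 : BW G Y) = 0 := congrArg Subtype.val h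
  have h2 := congrArg (fun T : BW G Y => ‖T (dlt (Om, y))‖) h1
  simp only [one_apply_eq_self, zero_apply, norm_zero, norm_dlt] at h2
  exact one_ne_zero h2

theorem compress' [Infinite G] (C : StarSubalgebra ℂ (l2 Y →L[ℂ] l2 Y))
    [hC : IsClosed (C : Set (l2 Y →L[ℂ] l2 Y))] (hS : SimpleC C) (b : Bt G C) (hb : b ≠ 0) :
    ∃ v, star v * (star b * b) * v = 1 := by
  obtain ⟨v, hv, h1⟩ := compress C hS (b : BW G Y) b.2 (fun h => hb (Subtype.ext h))
  exact ⟨⟨v, hv⟩, Subtype.ext h1⟩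

theorem simple_Bt [Infinite G] [Nonempty Y] (C : StarSubalgebra ℂ (l2 Y →L[ℂ] l2 Y))
    [hC : IsClosed (C : Set (l2 Y →L[ℂ] l2 Y))] (hS : SimpleC C) : SimpleC (Bt G C) := by
  have := nontriv_Bt (G := G) C
  exact simple_of_compress (compress' C hS)

theorem pi_Bt [Infinite G] [Nonempty Y] (C : StarSubalgebra ℂ (l2 Y →L[ℂ] l2 Y))
    [hC : IsClosed (C : Set (l2 Y →L[ℂ] l2 Y))] (hS : SimpleC C) : PurelyInfinite (Bt G C) := by
  have := nontriv_Bt (G := G) C
  refine pi_of_compress (compress' C hS) ?_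
  obtain ⟨a, b, hab⟩ := exists_pair_ne G
  refine ⟨⟨s Y a, PP_mem _ (PP_s a)⟩, Subtype.ext (star_s_mul_s a), fun h => ?_⟩
  have h1 : s Y a * star (s Y a) = 1 := congrArg Subtype.val h
  have h2 : s Y b = 0 := by
    calc s Y b = s Y a * star (s Y a) * s Y b := by rw [h1, one_mul]
      _ = s Y a * (star (s Y a) * s Y b) := by rw [mul_assoc]
      _ = 0 := by rw [star_s_mul_s_ne hab, mul_zero]
  have h3 := star_s_mul_s (Y := Y) b
  rw [h2, mul_zero] at h3
  have h4 : (1 : Bt G C) = 0 := Subtype.ext h3.symm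
  exact one_ne_zero h4

theorem Bt_sep [Countable G] (C : StarSubalgebra ℂ (l2 Y →L[ℂ] l2 Y))
    (hC : IsSeparable (C : Set (l2 Y →L[ℂ] l2 Y))) : IsSeparable (Bt G C : Set (BW G Y)) := by
  have h1 : IsSeparable (GG C : Set (BW G Y)) := by
    have h2 : IsSeparable ((fun q : BW G Y × (l2 Y →L[ℂ] l2 Y) =>
        q.1 * Amp G q.2) '' (PP G Y ×ˢ (C : Set (l2 Y →L[ℂ] l2 Y)))) := by
      apply IsSeparable.image
      · exact (PP_countable.isSeparable).prod hC
      · exact continuous_fst.mul ((star_hom_continuous (Amp G)).comp continuous_snd)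
    refine h2.mono ?_
    rintro x ⟨p, hp, c, hc, rfl⟩
    exact ⟨(p, c), ⟨hp, hc⟩, rfl⟩
  have h3 : IsSeparable (closure (Submodule.span ℂ (GG C : Set (BW G Y)) : Set (BW G Y))) :=
    h1.span.closure
  refine h3.mono fun x hx => ?_
  have h5 : x ∈ closure ((B0 C : StarSubalgebra ℂ (BW G Y)) : Set (BW G Y)) := by
    rw [← StarSubalgebra.topologicalClosure_coe]; exact hx
  exact h5

end gen

theorem sep_C0 : IsSeparable (C0 : Set (l2 Unit →L[ℂ] l2 Unit)) := by
  have h1 : IsSeparable (Set.range fun c : ℂ => c • (1 : l2 Unit →L[ℂ] l2 Unit)) :=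
    isSeparable_range (by fun_prop)
  exact h1.mono fun T _ => ⟨_, (scalar T).symm⟩

/-- the inner algebra -/
abbrev C1 : StarSubalgebra ℂ (BW GZ Unit) := Bt GZ C0

/-- the set of labels -/
abbrev YY : Type := Wd GZ × Unit

/-- the algebra `D` -/
abbrev DD : StarSubalgebra ℂ (BW GZ YY) := Bt GZ C1

theorem simple_C1 : SimpleC C1 := simple_Bt C0 simple_C0

theorem simple_D : SimpleC DD := simple_Bt C1 simple_C1

theorem pi_D : PurelyInfinite DD := pi_Bt C1 simple_C1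

theorem sep_D : SeparableSpace DD :=
  (Bt_sep C1 (Bt_sep C0 sep_C0)).separableSpace

end Q89.CE
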